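import Pool.Agent.Q217.CMJ.Final

set_option autoImplicit false

open MeasureTheory
open scoped ENNReal

namespace Pool.Agent.Results.MP_f93fdf_pr.ExplosionWithoutStar

/-- A realisation of the inter-birth times: `x (u, j)` is the waiting time, in `[0, ∞]`, before
the birth of the `j`-th child (children are counted from `0`) of the individual `u`. The
individual `i :: u` is the `i`-th child of `u`, and `[]` is the root. -/
abbrev Times : Type := List ℕ × ℕ → ℝ≥0∞

/-- birth times -/
noncomputable def birth (x : Times) : List ℕ → ℝ≥0∞
  | [] => 0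
  | i :: u => birth x u + ∑ j ∈ Finset.range (i + 1), x (u, j)

/-- the explosion time: infimum of the times by which infinitely many individuals are born -/
noncomputable def explosionTime (x : Times) : ℝ≥0∞ :=
  sInf {t | {u : List ℕ | birth x u ≤ t}.Infinite}

/-- the individuals born before explosion -/
def tree (x : Times) : Set (List ℕ) := {u | birth x u < explosionTime x}

/-- `u` is a vertex of infinite degree (an infinite star) of the tree at explosion -/
def IsStar (x : Times) (u : List ℕ) : Prop :=
  u ∈ tree x ∧ {i : ℕ | (i :: u) ∈ tree x}.Infinite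

/-- the law of the process in which the waiting time before the `j`-th child has law `μ j`, all
waiting times of all individuals being independent -/
noncomputable def processLaw (μ : ℕ → Measure ℝ≥0∞) : Measure Times :=
  Measure.infinitePi (fun p : List ℕ × ℕ => μ p.2)

theorem birth_eq (x : Times) (u : List ℕ) : birth x u = Pool.Agent.Q217.CMJ.birth x u := by
  induction u with
  | nil => rfl
  | cons i u ih =>
    show birth x u + _ = Pool.Agent.Q217.CMJ.birth x u + _
    rw [ih]

theorem explosionTime_eq (x : Times) : explosionTime x = Pool.Agent.Q217.CMJ.explosionTime x := by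
  unfold explosionTime Pool.Agent.Q217.CMJ.explosionTime
  simp only [birth_eq]

theorem tree_eq (x : Times) : tree x = Pool.Agent.Q217.CMJ.tree x := by
  unfold tree Pool.Agent.Q217.CMJ.tree
  simp only [birth_eq, explosionTime_eq]

/-- There are laws `μ 0, μ 1, ...` on `(0, ∞]` such that the process with independent
inter-birth times with these laws almost surely survives, explodes in finite time, and has no
vertex of infinite degree at explosion. -/
theorem result : ∃ μ : ℕ → Measure ℝ≥0∞, (∀ j, IsProbabilityMeasure (μ j)) ∧ (∀ j, μ j {0} = 0) ∧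
    ∀ᵐ x ∂(processLaw μ), (tree x).Infinite ∧ explosionTime x < ∞ ∧ ∀ u, ¬ IsStar x u := by
  refine ⟨Pool.Agent.Q217.CMJ.μ, fun j => inferInstance, Pool.Agent.Q217.CMJ.μ_zero, ?_⟩
  have h : ∀ᵐ x ∂(processLaw Pool.Agent.Q217.CMJ.μ), (Pool.Agent.Q217.CMJ.tree x).Infinite ∧
      Pool.Agent.Q217.CMJ.explosionTime x < ∞ ∧ ∀ u, ¬ Pool.Agent.Q217.CMJ.IsStar x u :=
    Pool.Agent.Q217.CMJ.main
  filter_upwards [h] with x hx
  refine ⟨by rw [tree_eq]; exact hx.1, by rw [explosionTime_eq]; exact hx.2.1, fun u hu => ?_⟩
  refine hx.2.2 u ?_
  unfold IsStar at hu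
  rw [tree_eq] at hu
  exact hu

end Pool.Agent.Results.MP_f93fdf_pr.ExplosionWithoutStar
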